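import Mathlib
import Pool.Agent.V1187.St2

/-!
The connectivity bound for the Stirling complex of the triangular board is sharp for every odd
size at least 3.
-/

namespace Pool.Agent.Results.MP_2b5625_co.OddSharp

open Pool.Agent.V1187.St

/-- The squares `(i, j)` of the triangular board of size `n`: column `i`, row `j`, with
`1 ≤ i ≤ j ≤ n`. -/
def board (n : ℕ) : Finset (ℕ × ℕ) :=
  ((Finset.Icc 1 n) ×ˢ (Finset.Icc 1 n)).filter (fun p => p.1 ≤ p.2)

/-- A set of squares is non-attacking if no two of its squares share a column or a row. -/
def NonAttacking {n : ℕ} (s : Finset (board n)) : Prop :=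
  ∀ p ∈ s, ∀ q ∈ s, p ≠ q → p.1.1 ≠ q.1.1 ∧ p.1.2 ≠ q.1.2

/-- The Stirling complex `St(n)`: vertices are the squares of the triangular board and faces are
the nonempty placements of non-attacking rooks. -/
def stirling (n : ℕ) : AbstractSimplicialComplex (board n) where
  faces := {s | s.Nonempty ∧ NonAttacking s}
  isRelLowerSet_faces := fun s hs =>
    ⟨hs.1, fun t hts ht => ⟨ht, fun p hp q hq => hs.2 p (hts hp) q (hts hq)⟩⟩
  singleton_mem := fun v => ⟨Finset.singleton_nonempty v, fun p hp q hq hpq =>
    absurd ((Finset.mem_singleton.1 hp).trans (Finset.mem_singleton.1 hq).symm) hpq⟩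

/-- A space is `k`-connected if it is nonempty and its homotopy groups `π_i` vanish, at every base
point, for all `0 ≤ i ≤ k`. -/
def IsKConnected (k : ℕ) (X : Type) [TopologicalSpace X] : Prop :=
  Nonempty X ∧ ∀ i : ℕ, i ≤ k → ∀ x : X, Subsingleton (HomotopyGroup.Pi i X x)

/-- the index of a pair. -/
def idx {d : ℕ} (o : Option (Fin d)) : ℕ := o.elim d (fun k => (k : ℕ))

lemma idx_le {d : ℕ} (o : Option (Fin d)) : idx o ≤ d := by
  cases o with
  | none => exact le_refl _
  | some k => exact k.2.le

lemma idx_inj {d : ℕ} : Function.Injective (idx (d := d)) := by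
  intro o o' h
  cases o with
  | none =>
    cases o' with
    | none => rfl
    | some k => exact absurd h.symm (ne_of_lt k.2)
  | some k =>
    cases o' with
    | none => exact absurd h (ne_of_lt k.2)
    | some k' => exact congrArg some (Fin.ext h)

lemma exists_idx {d i : ℕ} (h : i ≤ d) : ∃ o : Option (Fin d), idx o = i := by
  rcases h.lt_or_eq with h | h
  · exact ⟨some ⟨i, h⟩, rfl⟩
  · exact ⟨none, h.symm⟩

/-- the first square of a pair. -/
def av (d : ℕ) (o : Option (Fin d)) : board (2 * d + 1) :=
  ⟨(idx o + 1, d + idx o + 1), by
    have := idx_le o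
    simp only [board, Finset.mem_filter, Finset.mem_product, Finset.mem_Icc]
    omega⟩

/-- the column of the second square of a pair. -/
def bcol {d : ℕ} (o : Option (Fin d)) : ℕ := o.elim (2 * d + 1) (fun k => (k : ℕ) + 1)

lemma bcol_bound {d : ℕ} (o : Option (Fin d)) : 1 ≤ bcol o ∧ bcol o ≤ 2 * d + 1 := by
  cases o with
  | none =>
    constructor
    · show 1 ≤ 2 * d + 1
      omega
    · exact le_refl _
  | some k =>
    have := k.2
    constructor
    · show 1 ≤ (k : ℕ) + 1
      omega
    · show (k : ℕ) + 1 ≤ 2 * d + 1
      omega

/-- the second square of a pair. -/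
def bv (d : ℕ) (o : Option (Fin d)) : board (2 * d + 1) :=
  ⟨(bcol o, bcol o), by
    have := bcol_bound o
    simp only [board, Finset.mem_filter, Finset.mem_product, Finset.mem_Icc]
    omega⟩

lemma bcol_none {d : ℕ} : bcol (none : Option (Fin d)) = 2 * d + 1 := rfl
lemma bcol_some {d : ℕ} (k : Fin d) : bcol (some k) = (k : ℕ) + 1 := rfl
lemma idx_none {d : ℕ} : idx (none : Option (Fin d)) = d := rfl
lemma idx_some {d : ℕ} (k : Fin d) : idx (some k) = (k : ℕ) := rfl

lemma crossData (d : ℕ) (hd : 0 < d) :
    CrossData (stirling (2 * d + 1)) (av d) (bv d) where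
  ha := by
    intro o o' h
    have h1 := congrArg (fun p => p.1.1) h
    simp only [av] at h1
    exact idx_inj (by omega)
  hb := by
    intro o o' h
    have h1 := congrArg (fun p => p.1.1) h
    simp only [bv] at h1
    cases o with
    | none =>
      cases o' with
      | none => rfl
      | some k =>
        rw [bcol_none, bcol_some] at h1
        have := k.2
        omega
    | some k =>
      cases o' with
      | none =>
        rw [bcol_none, bcol_some] at h1
        have := k.2
        omega
      | some k' =>
        rw [bcol_some, bcol_some] at h1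
        exact congrArg some (Fin.ext (by omega))
  hab := by
    intro o o' h
    have h1 := congrArg (fun p => p.1.1) h
    have h2 := congrArg (fun p => p.1.2) h
    simp only [av, bv] at h1 h2
    omega
  sel := by
    intro c
    refine ⟨⟨_, Finset.mem_image_of_mem _ (Finset.mem_univ none)⟩, ?_⟩
    intro p hp q hq hpq
    rw [Finset.mem_image] at hp hq
    obtain ⟨o, _, rfl⟩ := hp
    obtain ⟨o', _, rfl⟩ := hq
    have hne : o ≠ o' := by
      rintro rfl
      exact hpq rfl
    cases o with
    | none =>
      cases o' with
      | none => exact absurd rfl hne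
      | some k =>
        have := k.2
        cases hc : c none <;> cases hc' : c (some k) <;>
          simp only [hc, hc', av, bv, bcol_none, bcol_some, idx_none, idx_some, if_true,
            Bool.false_eq_true, if_false] <;> omega
    | some k =>
      cases o' with
      | none =>
        have := k.2
        cases hc : c none <;> cases hc' : c (some k) <;>
          simp only [hc, hc', av, bv, bcol_none, bcol_some, idx_none, idx_some, if_true,
            Bool.false_eq_true, if_false] <;> omega
      | some k' =>
        have h1 := k.2
        have h2 := k'.2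
        have h3 : (k : ℕ) ≠ (k' : ℕ) := fun h => hne (congrArg some (Fin.ext h))
        cases hc : c (some k) <;> cases hc' : c (some k') <;>
          simp only [hc, hc', av, bv, bcol_none, bcol_some, idx_none, idx_some, if_true,
            Bool.false_eq_true, if_false] <;> omega
  opp := by
    intro s hs o ⟨h1, h2⟩
    have hne : av d o ≠ bv d o := by
      intro h
      have h1 := congrArg (fun p => p.1.1) h
      have h2 := congrArg (fun p => p.1.2) h
      simp only [av, bv] at h1 h2
      omega
    have h3 := hs.2 _ h1 _ h2 hne
    cases o with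
    | none =>
      apply h3.2
      simp only [av, bv, idx_none, bcol_none]
      omega
    | some k =>
      apply h3.1
      simp only [av, bv, idx_some, bcol_some]
  top := by
    intro s hs hall v hv
    by_contra hcon
    push Not at hcon
    have hatt : ∀ o : Option (Fin d), v.1.1 ≠ idx o + 1 ∧ v.1.2 ≠ d + idx o + 1 := by
      intro o
      exact hs.2 v hv _ (hall o) (hcon o)
    have hb := v.2
    simp only [board, Finset.mem_filter, Finset.mem_product, Finset.mem_Icc] at hb
    have h1 : d + 1 < v.1.1 := by
      by_contra h
      push Not at h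
      obtain ⟨o, ho⟩ := exists_idx (d := d) (i := v.1.1 - 1) (by omega)
      exact (hatt o).1 (by omega)
    have h2 : v.1.2 < d + 1 := by
      by_contra h
      push Not at h
      obtain ⟨o, ho⟩ := exists_idx (d := d) (i := v.1.2 - (d + 1)) (by omega)
      exact (hatt o).2 (by omega)
    omega

/-- For every odd `n ≥ 3` the Stirling complex `St(n)` is not `(n - 1) / 2`-connected. -/
theorem result (n : ℕ) (hodd : Odd n) (hn : 3 ≤ n) :
    ¬ IsKConnected ((n - 1) / 2) (Realization (stirling n)) := by
  obtain ⟨d, rfl⟩ := hodd
  rintro ⟨_, h⟩
  have hd : (2 * d + 1 - 1) / 2 = d := by omega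
  rw [hd] at h
  exact not_subsingleton (crossData d (by omega)) (h d le_rfl _)

end Pool.Agent.Results.MP_2b5625_co.OddSharp
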